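import Pool.Agent.H1.KrD

namespace Pool.Agent.Results.MP_a2f955_an.Yes

open MeasureTheory H1.Kr

/-- Both parts of any minimal decomposition of a measurable `f ∈ R_A` are measurable. -/
theorem result (A : ENNReal) (hA : 0 < A) (f g k : ℝ → ℂ) (hf : AEMeasurable f (volume.restrict (I A)))
    (h : InR (I A) f) (_hh : ∀ x ∈ I A, f (-x) = starRingEnd ℂ (f x)) (hg : InP (I A) g) (hk : InP (I A) k)
    (e1 : ∀ x ∈ I A, f x = g x - k x) (e2 : (nrm (I A) f : ℂ) = g 0 + k 0) :
    AEMeasurable g (volume.restrict (I A)) ∧ AEMeasurable k (volume.restrict (I A)) :=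
  minimal (I_open A) (I_zero hA) I_neg hf h hg hk e1 e2

end Pool.Agent.Results.MP_a2f955_an.Yes
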